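import Pool.Agent.TH709.GG.Sph8

set_option autoImplicit false

/-!
# Gal's conjecture and vertices from which no tetrahedron is far

A face of a complex is far from a vertex `v` if none of its vertices is `v` or joined to `v` by an
edge.  For a face `F` of a flag homology sphere `S` and a face `T` of the link of `F` consider the
alternating sums `∑ (-1)^|G| γᵢ(lk (F ∪ G))` over `G ⊆ T`; for `F = T = ∅` this is `γᵢ(S)`, for
`T = {v}` it is `γᵢ(lk F) - γᵢ(lk (F ∪ {v}))`.  Suppose that the links of the faces with `d - 4`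
vertices satisfy `f₁ - 5 f₀ + 16 ≥ 0`, as they do by the theorem of Davis and Okun.

1. Let `P` be a set of pairs `(F, T)` such that for each pair in `P` with `|F| ≤ d - 5`
   (`|F| ≤ d - 6` if `T = ∅`) there is a vertex `v` with `T ∪ {v}` in the link of `F` such that no
   face with four vertices of the link is far from `v`, and `P` contains the pair `(F ∪ {v}, T)` if
   `v ∉ T` and, unless `T = ∅` and `|F| = d - 7`, the pairs `(F ∪ E, T ∩ lk (F ∪ E))` for the edges
   `E` of the link far from `v` and `(F ∪ R \ {t}, {t} ∪ (T ∩ lk (F ∪ R)))` for the vertices `t` of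
   the triangles `R` far from `v` (or the sums of the pair are nonnegative for another reason).
   Then the sums of the pairs in `P` are nonnegative.  For instance `P` can be the set of all pairs
   with `2 |T| ≤ |F| + c`, for a number `c`.
2. For `d = 6` and `F = T = ∅` the criterion asks for one vertex only: Gal's conjecture holds for
   the flag homology 5-spheres which have a vertex from which no tetrahedron is far.
3. For `d = 7` it asks for a vertex `v` from which no tetrahedron is far, and a vertex `u` of the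
   link of `v` from which no tetrahedron of the link is far.
-/

namespace Pool.Agent.Results.MP_19e880_co.FarTetrahedra

open Pool.Agent.W497.FS Pool.Agent.TH709.GG.F3

/-- The criterion for the alternating sums of gamma-vectors of links, and Gal's conjecture for
flag homology spheres of dimension 5 and 6 with vertices from which no tetrahedron is far. -/
theorem result :
    (∀ (k : Type) [Field k] (n d : ℕ) (S : Finset (Finset (Fin n))), IsFlagSphere k d S →
      ∀ g : Finset (Fin n) → ℕ → ℤ,
      (∀ F ∈ S, IsGamma (d - F.card) (link S F) (g F) ∧ ∀ i, d < 2 * i + F.card → g F i = 0) →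
      (∀ F ∈ S, F.card + 4 = d → 5 * ((link S F).filter (fun G => G.card = 1)).card ≤
        ((link S F).filter (fun G => G.card = 2)).card + 16) →
      ∀ P : Finset (Fin n) → Finset (Fin n) → Prop,
      (∀ F ∈ S, ∀ T ∈ link S F, P F T → F.card + 5 ≤ d → (T = ∅ → F.card + 6 ≤ d) →
        (∀ i, 0 ≤ ∑ G ∈ T.powerset, (-1) ^ G.card * g (F ∪ G) i) ∨
        ∃ v, insert v T ∈ link S F ∧ (∀ G, IsFar (link S F) v G → G.card ≤ 3) ∧
          (v ∉ T → P (insert v F) T) ∧ ((T = ∅ → F.card + 7 ≠ d) →
          (∀ E, IsFar (link S F) v E → E.card = 2 →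
            P (F ∪ E) (T.filter (fun x => insert x (F ∪ E) ∈ S))) ∧
          (∀ R, IsFar (link S F) v R → R.card = 3 → ∀ t ∈ R,
            P (F ∪ R.erase t) (insert t (T.filter (fun x => insert x (F ∪ R) ∈ S)))))) →
      ∀ F ∈ S, ∀ T ∈ link S F, P F T →
        ∀ i, 0 ≤ ∑ G ∈ T.powerset, (-1) ^ G.card * g (F ∪ G) i) ∧
    (∀ (k : Type) [Field k] (n : ℕ) (S : Finset (Finset (Fin n))), IsFlagSphere k 6 S →
      (∀ F ∈ S, F.card = 2 → 5 * ((link S F).filter (fun G => G.card = 1)).card ≤
        ((link S F).filter (fun G => G.card = 2)).card + 16) →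
      (∃ v, ({v} : Finset (Fin n)) ∈ S ∧ ∀ G, IsFar S v G → G.card ≤ 3) →
      ∀ γ : ℕ → ℤ, IsGamma 6 S γ → ∀ i ≤ 3, 0 ≤ γ i) ∧
    (∀ (k : Type) [Field k] (n : ℕ) (S : Finset (Finset (Fin n))), IsFlagSphere k 7 S →
      (∀ F ∈ S, F.card = 3 → 5 * ((link S F).filter (fun G => G.card = 1)).card ≤
        ((link S F).filter (fun G => G.card = 2)).card + 16) →
      (∃ v, ({v} : Finset (Fin n)) ∈ S ∧ (∀ G, IsFar S v G → G.card ≤ 3) ∧
        ∃ u, ({u} : Finset (Fin n)) ∈ link S {v} ∧ ∀ G, IsFar (link S {v}) u G → G.card ≤ 3) →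
      ∀ γ : ℕ → ℤ, IsGamma 7 S γ → ∀ i ≤ 3, 0 ≤ γ i) :=
  ⟨fun _ _ _ _ _ hS _ hg h4 P hv => sphereQ hS hg h4 P hv,
    fun _ _ _ _ hS h4 hv _ hγ => sphere6 hS h4 hv hγ,
    fun _ _ _ _ hS h4 hv _ hγ => sphere7 hS h4 hv hγ⟩

end Pool.Agent.Results.MP_19e880_co.FarTetrahedra
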