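import Pool.Agent.TH417.Gal.F

/-!
# A lower bound for the second gamma-number of a flag homology sphere

For every flag homology `(d-1)`-sphere `4 f₁ ≥ (5 d - 6) f₀ - 2 d (d - 2)`; for `d ≥ 4` this is the
inequality `γ₂ ≥ - (3/4) (d - 2) γ₁`.

Idea of the proof (it works for all flag normal pseudomanifolds, see `Pool.Agent.TH417.Gal.E`).
Undoing edge subdivisions and suspensions one may assume that there are none.
Then, if `x` is a suspension vertex of the link of `v`, the vertex `v` is not a suspension vertex of
the link of `x`, and the vertices `v` with this property for a given `x` lie in a single join factor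
`C` of the link of `x`; as the link of `x` is not contained in another link they do not dominate
`C`, hence by a bound for vertex cuts there are at most `|C| - 2 (rank C - 1)` of them.  On the other
hand a link with few suspension vertices has many vertices.  Double counting gives the bound.
-/

set_option autoImplicit false

namespace Pool.Agent.Results.MP_19e880_co.GammaTwoBound

open Pool.Agent.W497.FS Pool.Agent.TH417.Gal

/-- the number of edges -/
def numEdge {n : ℕ} (S : Finset (Finset (Fin n))) : ℕ := (S.filter (fun G => G.card = 2)).card

/-- `4 f₁ ≥ (5 d - 6) f₀ - 2 d (d - 2)`, and its form `4 γ₂ ≥ - 3 (d - 2) γ₁` for `d ≥ 4` -/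
theorem result (k : Type) [Field k] (n d : ℕ) (S : Finset (Finset (Fin n)))
    (hS : IsFlagSphere k d S) :
    (5 * (d : ℤ) - 6) * numVert S - 2 * d * (d - 2) ≤ 4 * numEdge S ∧
      (4 ≤ d → ∀ γ : ℕ → ℤ, IsGamma d S γ → -(3 * ((d : ℤ) - 2) * γ 1) ≤ 4 * γ 2) := by
  refine ⟨sphere_edges hS, fun hd γ hγ => ?_⟩
  have := gamma_bound hS hd hγ
  linarith

end Pool.Agent.Results.MP_19e880_co.GammaTwoBound
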