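import Pool.Agent.TH709.GG.Main

set_option autoImplicit false

/-!
# Gal's conjecture under gluing along induced equators and inverse edge contractions

`Cls d α H W` (see `Pool.Agent.TH709.GG.ClsDef`) says that the flag complex of the cliques of `H`
inside `W` belongs to the least class that contains the flag Eulerian complexes of rank at most
three and those of rank four with `f₁ - 5 f₀ + 16 ≥ 0`, and is closed under isomorphism, links,
joins, edge subdivisions, inverse edge contractions (the edge lies in no induced 4-cycle, its ends
have links in the class), gluing two members after removing from each a vertex, along the links of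
the two vertices, and under passing from the vertex links to the complex if every facet contains a
vertex which is not far from any triangle.

The members of the class are totally monotone: for disjoint `σ`, `κ` with `σ ∪ κ` a face the
alternating sum `∑ (-1)^|G| γᵢ(lk (σ ∪ G))` over `G ⊆ κ` is nonnegative.  For `σ = κ = ∅` this is
Gal's conjecture, for `|κ| = 1` it says that the gamma-vectors of links only decrease.
-/

namespace Pool.Agent.Results.MP_19e880_co.GluingAndContraction

open Pool.Agent.W497.FS Pool.Agent.TH709.GG

/-- Gal's conjecture and total monotonicity for the members of the class `Cls`, and the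
consequences for the flag homology spheres in the class. -/
theorem result :
    (∀ (d : ℕ) (α : Type) [DecidableEq α] (H : SimpleGraph α) (W : Finset α), Cls d α H W →
      (∀ σ ∈ cl H W, σ.card ≤ d ∧ ∃ g : ℕ → ℤ, IsGam H (d - σ.card) (lkF H W σ) g) ∧
      ∀ g : Finset α → ℕ → ℤ, (∀ σ ∈ cl H W, IsGam H (d - σ.card) (lkF H W σ) (g σ)) →
        ∀ σ κ : Finset α, Disjoint σ κ → σ ∪ κ ∈ cl H W → ∀ i,
          0 ≤ ∑ G ∈ κ.powerset, (-1) ^ G.card * g (σ ∪ G) i) ∧
    (∀ (k : Type) [Field k] (n d : ℕ) (S : Finset (Finset (Fin n))),
      IsFlagSphere k d S → Cls d (Fin n) (skel S) (vert S) →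
      ∀ g : Finset (Fin n) → ℕ → ℤ, (∀ F ∈ S, IsGamma (d - F.card) (link S F) (g F)) →
        (∀ i ≤ d / 2, 0 ≤ g ∅ i) ∧ ∀ F ∈ S, ∀ i ≤ (d - F.card) / 2, g F i ≤ g ∅ i) :=
  ⟨fun _ _ _ _ _ h => cls_total h, fun _ _ _ _ _ hS hC g hg => sphere_total hS hC g hg⟩

end Pool.Agent.Results.MP_19e880_co.GluingAndContraction
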