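import Pool.Agent.TH208.GJ.MarksMain

/-!
# Gal's conjecture is equivalent to inequalities between the gamma-vectors of links

Let `K` be a nonempty family of fields, and let *sphere of rank `d`* mean a flag complex which is a
homology `(d-1)`-sphere over each of these fields.  For numbers `i` and `D` the following are
equivalent:
1. `γ_i(S) ≥ 0` for all spheres `S` of rank at most `D`;
2. `∑_τ (-1/2)^|τ| γ_i(lk τ) ≥ 0` for every such `S` and every set `σ` of vertices of `S` each of
  which is joined to all but at most one of the other vertices in `σ`; the sum is over the faces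
  `τ` of `S` inside `σ`;
3. `γ_i(lk v) + γ_i(lk w) ≤ 2 γ_i(S)` for every such `S` and any two non-adjacent vertices `v`, `w`.

Proof of 1 ⟹ 2, by induction on the size of `σ`: if `a` and `b` in `σ` are not adjacent, glue `2 s + 1`
copies of `S` along the links of `a` and of `b` in turn.  The other marked vertices are common
neighbours of `a` and `b`, so they survive, and the sum for the glued sphere and the smaller set
of marked vertices is `A + s B`, where `B` is half the sum for `S` and `σ` up to a positive factor;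
let `s` tend to infinity.  If `σ` is a face, glue two copies of `S` along the link of a vertex.
-/

set_option autoImplicit false

namespace Pool.Agent.Results.MP_19e880_co.LinkSums

open Pool.Agent.W497.FS Pool.Agent.TH208.GJ

/-- the link of `τ` in `S` -/
def link {n : ℕ} (S : Finset (Finset (Fin n))) (τ : Finset (Fin n)) : Finset (Finset (Fin n)) :=
  S.filter (fun F => Disjoint F τ ∧ F ∪ τ ∈ S)

/-- `γ` is the gamma-vector of the complex `S` of rank `d`, with zeros added at the end -/
def IsGam {n : ℕ} (d : ℕ) (S : Finset (Finset (Fin n))) (γ : ℕ → ℤ) : Prop :=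
  IsGamma d S γ ∧ ∀ j, d / 2 < j → γ j = 0

/-- `σ` consists of vertices of `S`, each joined by an edge to all but at most one of the other
vertices in `σ` -/
def AlmostJoined {n : ℕ} (S : Finset (Finset (Fin n))) (σ : Finset (Fin n)) : Prop :=
  (∀ x ∈ σ, ({x} : Finset (Fin n)) ∈ S) ∧
  ∀ x ∈ σ, ∀ z ∈ σ, ∀ w ∈ σ, x ≠ z → x ≠ w → ({x, z} : Finset (Fin n)) ∉ S →
    ({x, w} : Finset (Fin n)) ∉ S → z = w

theorem isGam_poly {n d : ℕ} {S : Finset (Finset (Fin n))} {γ : ℕ → ℤ} (h : IsGam d S γ) :
    ∃ G, IsG d S G ∧ ∀ i, G.coeff i = γ i := by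
  obtain ⟨G, hG, h1⟩ := isG_of_isGamma h.1
  refine ⟨G, hG, fun i => ?_⟩
  by_cases hi : i ≤ d / 2
  · exact h1 i hi
  · rw [hG.2 i (by omega), h.2 i (by omega)]

theorem isGam_of_isG {n d : ℕ} {S : Finset (Finset (Fin n))} {G : Polynomial ℤ} (h : IsG d S G) :
    IsGam d S (fun i => G.coeff i) :=
  ⟨(isGamma_iff fun _ _ => rfl).2 h.1, h.2⟩

theorem rank_zero {k : Type} [Field k] {n : ℕ} {S : Finset (Finset (Fin n))}
    (h : IsFlagSphere k 0 S) {G : Polynomial ℤ} (hG : IsG 0 S G) (i : ℕ) : 0 ≤ G.coeff i := by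
  have h1 := hG.1
  have hS : S = {∅} := by
    ext F
    rw [Finset.mem_singleton]
    constructor
    · intro hF
      have := h.card_le F hF
      rw [← Finset.card_eq_zero]; omega
    · rintro rfl
      exact empty_mem' h
  have h2 : fp S = 1 := by rw [fp, hS]; simp
  rw [h2, hp, gp] at h1
  simp at h1
  have h3 : G.coeff 0 = 1 := by
    have := congrArg (fun P : Polynomial ℤ => P.coeff 0) h1
    simpa using this.symm
  rcases Nat.eq_zero_or_pos i with rfl | hpos
  · omega
  · rw [hG.2 i (by omega)]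

theorem result (ι : Type) [Nonempty ι] (K : ι → Type) [∀ j, Field (K j)] (i D : ℕ) :
    List.TFAE [
      ∀ d ≤ D, ∀ (n : ℕ) (S : Finset (Finset (Fin n))) (γ : ℕ → ℤ),
        (∀ j, IsFlagSphere (K j) d S) → IsGam d S γ → 0 ≤ γ i,
      ∀ d ≤ D, ∀ (n : ℕ) (S : Finset (Finset (Fin n))) (σ : Finset (Fin n))
        (γ : Finset (Fin n) → ℕ → ℤ),
        (∀ j, IsFlagSphere (K j) d S) → AlmostJoined S σ →
        (∀ τ ∈ S, τ ⊆ σ → IsGam (d - τ.card) (link S τ) (γ τ)) →
          0 ≤ ∑ τ ∈ S.filter (fun τ => τ ⊆ σ), (-1 / 2 : ℚ) ^ τ.card * (γ τ i : ℚ),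
      ∀ d ≤ D, ∀ (n : ℕ) (S : Finset (Finset (Fin n))) (γ γ₁ γ₂ : ℕ → ℤ) (v w : Fin n),
        (∀ j, IsFlagSphere (K j) d S) → IsGam d S γ → {v} ∈ S → {w} ∈ S → v ≠ w → {v, w} ∉ S →
        IsGam (d - 1) (link S {v}) γ₁ → IsGam (d - 1) (link S {w}) γ₂ →
          γ₁ i + γ₂ i ≤ 2 * γ i] := by
  classical
  obtain ⟨i₀⟩ := (inferInstance : Nonempty ι)
  tfae_have 1 → 2 := by
    intro H d hd n S σ γ hS hσ hγ
    -- turn the vectors into polynomials
    have hex : ∀ τ, ∃ G, (τ ∈ S ∧ τ ⊆ σ) →
        (IsG (d - τ.card) (link S τ) G ∧ ∀ i, G.coeff i = γ τ i) := by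
      intro τ
      by_cases h : τ ∈ S ∧ τ ⊆ σ
      · obtain ⟨G, hG⟩ := isGam_poly (hγ τ h.1 h.2)
        exact ⟨G, fun _ => hG⟩
      · exact ⟨0, fun h' => absurd h' h⟩
    choose g hg using hex
    have hfun : 0 ≤ Fun S σ g i := by
      rcases d with _ | d
      · have hempty : σ = ∅ := by
          by_contra hne
          obtain ⟨x, hx⟩ := Finset.nonempty_iff_ne_empty.2 hne
          have := (hS i₀).card_le _ (hσ.1 x hx)
          rw [Finset.card_singleton] at this
          omega
        subst hempty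
        have hE := empty_mem' (hS i₀)
        have h1 := (hg ∅ ⟨hE, Finset.Subset.refl _⟩).1
        have h2 : link S ∅ = S := by
          ext F
          simp [link]
        rw [h2] at h1
        have := rank_zero (hS i₀) (by simpa using h1) i
        simpa [Fun, hE] using this
      · refine main_ineq (K := K) i₀ (d := d) (i := i) ?_ σ.card n S σ g rfl hS ?_ hσ.2 ?_
        · intro N T G hT hG
          exact H (d + 1) hd N T _ hT (isGam_of_isG hG)
        · intro x hx
          rw [mem_vert]
          exact hσ.1 x hx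
        · intro κ hκ hκσ
          exact (hg κ ⟨hκ, hκσ⟩).1
    have hsum : (Fun S σ g i : ℚ) = 2 ^ σ.card *
        ∑ τ ∈ S.filter (fun τ => τ ⊆ σ), (-1 / 2 : ℚ) ^ τ.card * (γ τ i : ℚ) := by
      rw [Fun, ← Finset.sum_filter]
      have hset : σ.powerset.filter (fun τ => τ ∈ S) = S.filter (fun τ => τ ⊆ σ) := by
        ext τ
        rw [Finset.mem_filter, Finset.mem_filter, Finset.mem_powerset]
        exact and_comm
      rw [hset, Finset.mul_sum]
      push_cast
      refine Finset.sum_congr rfl (fun τ hτ => ?_)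
      obtain ⟨h1, h2⟩ := Finset.mem_filter.1 hτ
      rw [(hg τ ⟨h1, h2⟩).2 i]
      have h3 := Finset.card_le_card h2
      have h4 : (2 : ℚ) ^ σ.card = 2 ^ (σ.card - τ.card) * 2 ^ τ.card := by
        rw [← pow_add, Nat.sub_add_cancel h3]
      rw [h4, div_pow, ← mul_assoc]
      have h5 : (2 : ℚ) ^ τ.card ≠ 0 := by positivity
      field_simp
    have h6 : (0 : ℚ) ≤ (Fun S σ g i : ℚ) := by exact_mod_cast hfun
    rw [hsum] at h6
    exact nonneg_of_mul_nonneg_right h6 (by positivity)
  tfae_have 2 → 1 := by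
    intro H d hd n S γ hS hγ
    have hE := empty_mem' (hS i₀)
    have h1 := H d hd n S ∅ (fun _ => γ) hS ⟨by simp, by simp⟩ (by
      intro τ hτ hτe
      rw [Finset.subset_empty] at hτe
      subst hτe
      have h2 : link S ∅ = S := by
        ext F
        simp [link]
      rw [h2, Finset.card_empty, Nat.sub_zero]
      exact hγ)
    have h2 : S.filter (fun τ => τ ⊆ (∅ : Finset (Fin n))) = {∅} := by
      ext τ
      rw [Finset.mem_filter, Finset.subset_empty, Finset.mem_singleton]
      exact ⟨fun h => h.2, fun h => ⟨by rw [h]; exact hE, h⟩⟩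
    rw [h2, Finset.sum_singleton, Finset.card_empty, pow_zero, one_mul] at h1
    exact_mod_cast h1
  tfae_have 1 → 3 := by
    intro H d hd n S γ γ₁ γ₂ v w hS hγ hv hw hvw hnadj h1 h2
    rcases d with _ | d
    · have := (hS i₀).card_le _ hv
      rw [Finset.card_singleton] at this
      omega
    · obtain ⟨G, hG, eG⟩ := isGam_poly hγ
      obtain ⟨G₁, hG₁, e₁⟩ := isGam_poly h1
      obtain ⟨G₂, hG₂, e₂⟩ := isGam_poly h2
      rw [← eG, ← e₁, ← e₂]
      have l1 := lnk_self (hS i₀) hv
      have l2 := lnk_self (hS i₀) hw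
      rw [lkF_singleton] at l1 l2
      refine pair_ineq (K := K) i₀ ?_ hS (mem_vert.2 hv) (mem_vert.2 hw) hvw
        (fun h => hnadj h.2) hG ?_ ?_
      · intro N T G' hT hG'
        exact H (d + 1) hd N T _ hT (isGam_of_isG hG')
      · rw [← l1]; exact hG₁
      · rw [← l2]; exact hG₂
  tfae_have 3 → 1 := by
    intro H d
    induction d with
    | zero =>
      intro hd n S γ hS hγ
      obtain ⟨G, hG, eG⟩ := isGam_poly hγ
      rw [← eG]
      exact rank_zero (hS i₀) hG i
    | succ d ih =>
      intro hd n S γ hS hγ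
      have h := hS i₀
      obtain ⟨a, ha⟩ := h.np.nonempty
      obtain ⟨b, hb, hba, hnadj⟩ := h.np.exists_nonadj ha
      have hlink : ∀ c ∈ vert S, ∀ j, IsFlagSphere (K j) d (link S {c}) := by
        intro c hc j
        have l1 := lnk_self (hS j) (mem_vert.1 hc)
        rw [lkF_singleton] at l1
        have h5 := isFlagSphere_of_mf ((mf_self (hS j)).lk hc)
        rw [← l1] at h5
        exact h5
      obtain ⟨G₁, hG₁⟩ := exists_isG (hlink a ha i₀)
      obtain ⟨G₂, hG₂⟩ := exists_isG (hlink b hb i₀)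
      have p1 := ih (by omega) n _ _ (hlink a ha) (isGam_of_isG hG₁)
      have p2 := ih (by omega) n _ _ (hlink b hb) (isGam_of_isG hG₂)
      have h3 := H (d + 1) hd n S γ _ _ a b hS hγ (mem_vert.1 ha) (mem_vert.1 hb) hba.symm
        (fun h4 => hnadj ⟨hba.symm, h4⟩) (isGam_of_isG hG₁) (isGam_of_isG hG₂)
      omega
  tfae_finish

end Pool.Agent.Results.MP_19e880_co.LinkSums
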